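import Mathlib

set_option autoImplicit false

/-!
Nonzero (double) lowering maps exist for all recurrent sequences.
-/

namespace Pool.Agent.Results.MP_87e037_al.LoweringMaps

open Polynomial Finset

variable {K : Type*} [Field K]

/-- `τ_i = ∏_{h < i} (λ - θ_h)` -/
noncomputable def tau (θ : ℕ → K) (i : ℕ) : K[X] := ∏ h ∈ range i, (X - C (θ h))

/-- `ρ_i = ∏_{h < i} (λ - θ_{d-h})` -/
noncomputable def rho (θ : ℕ → K) (d i : ℕ) : K[X] := ∏ h ∈ range i, (X - C (θ (d - h)))

/-- `Ψ` is a lowering map on the space `V` of the polynomials of degree at most `d`: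
`Ψ τ_0 = 0`, `Ψ ρ_0 = 0`, and `Ψ τ_i ∈ K τ_{i-1}`, `Ψ ρ_i ∈ K ρ_{i-1}` for `1 ≤ i ≤ d`. -/
def IsLoweringMap (θ : ℕ → K) (d : ℕ) (Ψ : degreeLE K (d : WithBot ℕ) →ₗ[K]
    degreeLE K (d : WithBot ℕ)) : Prop :=
  (∀ v : degreeLE K (d : WithBot ℕ), (v : K[X]) = tau θ 0 → (Ψ v : K[X]) = 0) ∧
  (∀ v : degreeLE K (d : WithBot ℕ), (v : K[X]) = rho θ d 0 → (Ψ v : K[X]) = 0) ∧
  (∀ i : ℕ, 1 ≤ i → i ≤ d → ∀ v : degreeLE K (d : WithBot ℕ), (v : K[X]) = tau θ i →
    ∃ c : K, (Ψ v : K[X]) = c • tau θ (i - 1)) ∧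
  (∀ i : ℕ, 1 ≤ i → i ≤ d → ∀ v : degreeLE K (d : WithBot ℕ), (v : K[X]) = rho θ d i →
    ∃ c : K, (Ψ v : K[X]) = c • rho θ d (i - 1))

/-- the images of the powers of the variable -/
noncomputable def mm (β γ ρ c c' t : K) : ℕ → K[X]
  | 0 => 0
  | 1 => C t
  | (n + 2) => C β * X * mm β γ ρ c c' t (n + 1) - X ^ 2 * mm β γ ρ c c' t n +
      C γ * (X * mm β γ ρ c c' t n + mm β γ ρ c c' t (n + 1)) + C ρ * mm β γ ρ c c' t n +
      (C c * X + C c') * X ^ n

/-- the operator -/
noncomputable def DD (β γ ρ c c' t : K) : K[X] →ₗ[K] K[X] :=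
  (basisMonomials K).constr K (mm β γ ρ c c' t)

theorem DD_X_pow (β γ ρ c c' t : K) (n : ℕ) :
    DD β γ ρ c c' t (X ^ n) = mm β γ ρ c c' t n := by
  have h : (X ^ n : K[X]) = basisMonomials K n := by
    rw [coe_basisMonomials, ← monomial_one_right_eq_X_pow]
  rw [h, DD, Module.Basis.constr_basis]

theorem DD_one (β γ ρ c c' t : K) : DD β γ ρ c c' t 1 = 0 := by
  have := DD_X_pow β γ ρ c c' t 0
  rwa [pow_zero] at this

theorem DD_X (β γ ρ c c' t : K) : DD β γ ρ c c' t X = C t := by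
  have := DD_X_pow β γ ρ c c' t 1
  rwa [pow_one] at this

/-- the relation satisfied by the operator -/
theorem DD_rel (β γ ρ c c' t : K) (f : K[X]) :
    DD β γ ρ c c' t (X ^ 2 * f) = C β * X * DD β γ ρ c c' t (X * f)
      - X ^ 2 * DD β γ ρ c c' t f + C γ * (X * DD β γ ρ c c' t f + DD β γ ρ c c' t (X * f))
      + C ρ * DD β γ ρ c c' t f + (C c * X + C c') * f := by
  induction f using Polynomial.induction_on' with
  | add p q hp hq =>
    simp only [mul_add, map_add, hp, hq]
    ring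
  | monomial n a =>
    have h1 : (monomial n a : K[X]) = a • X ^ n := by
      rw [← monomial_one_right_eq_X_pow, smul_monomial, smul_eq_mul, mul_one]
    have h2 : (X ^ 2 * (a • X ^ n) : K[X]) = a • X ^ (n + 2) := by
      rw [mul_smul_comm, ← pow_add, add_comm]
    have h3 : (X * (a • X ^ n) : K[X]) = a • X ^ (n + 1) := by
      rw [mul_smul_comm, ← pow_succ']
    rw [h1, h2, h3, map_smul, map_smul, map_smul, DD_X_pow, DD_X_pow, DD_X_pow, mm]
    simp only [smul_eq_C_mul]
    ring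

/-- the products attached to a sequence -/
noncomputable def pp (a : ℕ → K) (i : ℕ) : K[X] := ∏ h ∈ range i, (X - C (a h))

theorem pp_succ (a : ℕ → K) (i : ℕ) : pp a (i + 1) = (X - C (a i)) * pp a i := by
  rw [pp, prod_range_succ, mul_comm]; rfl

theorem pp_zero (a : ℕ → K) : pp a 0 = 1 := by simp [pp]

/-- The main computation. -/
theorem DD_pp {β γ ρ c c' t : K} {a s : ℕ → K} {d : ℕ} (hs0 : s 0 = 0) (hs1 : s 1 = t)
    (hs : ∀ i, i + 2 ≤ d → s i - β * s (i + 1) + s (i + 2) = c)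
    (hγ : ∀ i, i + 2 ≤ d → a i - β * a (i + 1) + a (i + 2) = γ)
    (hρ : ∀ i, i + 1 ≤ d → a i ^ 2 - β * a i * a (i + 1) + a (i + 1) ^ 2 - γ * (a i + a (i + 1)) = ρ)
    (hc : ∀ i, i + 2 ≤ d → s (i + 1) * (a (i + 1) - a (i + 2)) + s (i + 2) * (a (i + 1) - a i)
      - c * a (i + 1) = c') :
    ∀ i, i + 1 ≤ d → DD β γ ρ c c' t (pp a (i + 1)) = C (s (i + 1)) * pp a i := by
  set D := DD β γ ρ c c' t with hD
  have hD1 : D 1 = 0 := DD_one β γ ρ c c' t
  have hDX : D X = C t := DD_X β γ ρ c c' t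
  have hrel : ∀ f, D (X ^ 2 * f) = C β * X * D (X * f) - X ^ 2 * D f + C γ * (X * D f + D (X * f))
      + C ρ * D f + (C c * X + C c') * f := DD_rel β γ ρ c c' t
  have hC : ∀ (x : K) (f : K[X]), D (C x * f) = C x * D f := by
    intro x f
    rw [← smul_eq_C_mul, map_smul, smul_eq_C_mul]
  have h0 : 2 ≤ d → γ * s 1 + c' - (a 0 + a 1) * s 1 = - (s 2 * a 0) := by
    intro h2
    have g1 := hs 0 (by omega)
    have g2 := hγ 0 (by omega)
    have g3 := hc 0 (by omega)
    rw [hs0] at g1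
    simp only [zero_add] at g1 g2 g3
    linear_combination (-(s 1)) * g2 - g3 + a 1 * g1
  -- the first step
  have base0 : D (pp a 1) = C (s 1) * pp a 0 := by
    rw [pp_succ, pp_zero, mul_one, mul_one, map_sub, hDX, hs1]
    have : D (C (a 0)) = 0 := by
      have := hC (a 0) 1
      rwa [mul_one, hD1, mul_zero] at this
    rw [this, sub_zero]
  have base1 : 2 ≤ d → D (pp a 2) = C (s 2) * pp a 1 := by
    intro h2
    have e2 : pp a 2 = X ^ 2 * 1 - C (a 0 + a 1) * X + C (a 0 * a 1) * 1 := by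
      rw [pp_succ, pp_succ, pp_zero, C_add, C_mul]; ring
    have e1 : pp a 1 = X - C (a 0) := by rw [pp_succ, pp_zero, mul_one]
    rw [e2, e1, map_add, map_sub, hC, hC, hrel, mul_one, hD1, hDX, ← hs1]
    have h3 := congrArg (C : K → K[X]) (h0 h2)
    have h4 := congrArg (C : K → K[X]) (hs 0 (by omega))
    rw [hs0] at h4
    simp only [C_add, C_sub, C_mul, C_neg, C_0, zero_add] at h3 h4 ⊢
    linear_combination h3 - X * h4
  intro i
  induction i using Nat.twoStepInduction with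
  | zero => intro _; exact base0
  | one => intro h; exact base1 (by omega)
  | more i ih1 ih2 =>
    intro hi
    have h1 := ih1 (by omega)
    have h2 := ih2 (by omega)
    set u := pp a i with hu
    set q := pp a (i + 1) with hq
    have hqu : q = (X - C (a i)) * u := pp_succ a i
    have h5 : pp a (i + 1 + 1) = (X - C (a (i + 1))) * q := pp_succ a (i + 1)
    have hXq : D (X * q) = C (s (i + 2)) * q + C (a (i + 1)) * (C (s (i + 1)) * u) := by
      have e : X * q = pp a (i + 1 + 1) + C (a (i + 1)) * q := by rw [h5]; ring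
      rw [e, map_add, hC, h1, h2]
    have h6 : pp a (i + 2 + 1) = X ^ 2 * q - C (a (i + 1) + a (i + 2)) * (X * q) +
        C (a (i + 1) * a (i + 2)) * q := by
      rw [pp_succ, show i + 2 = i + 1 + 1 from rfl, h5, C_add, C_mul]; ring
    have k1 := congrArg (C : K → K[X]) (hs (i + 1) (by omega))
    have k2 := congrArg (C : K → K[X]) (hγ i (by omega))
    have k3 := congrArg (C : K → K[X]) (hρ i (by omega))
    have k4 := congrArg (C : K → K[X]) (hc i (by omega))
    have h7 : pp a (i + 2) = (X - C (a (i + 1))) * q := h5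
    rw [h6, map_add, map_sub, hC, hC, hrel, hXq, h1, h7]
    simp only [C_add, C_sub, C_mul, C_pow] at k1 k2 k3 k4 ⊢
    rw [hqu]
    linear_combination (-((X - C (a i)) * u)) * k4 + (-((X - C (a (i + 1))) * ((X - C (a i)) * u))) * k1
      + (-(C (s (i + 1)) * u)) * k3 +
      (-(X * C (s (i + 1)) * u + C (s (i + 2)) * ((X - C (a i)) * u) - C (a i) * C (s (i + 1)) * u)) * k2

theorem mm_degree (β γ ρ c c' t : K) : ∀ n : ℕ, (mm β γ ρ c c' t n).natDegree ≤ n := by
  intro n
  induction n using Nat.strong_induction_on with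
  | _ n ih =>
    match n with
    | 0 => simp [mm]
    | 1 => simp [mm]
    | (n + 2) =>
      have h0 := ih n (by omega)
      have h1 := ih (n + 1) (by omega)
      have hC : ∀ x : K, (C x : K[X]).natDegree ≤ 0 := fun x => (natDegree_C x).le
      have hX : (X : K[X]).natDegree ≤ 1 := natDegree_X_le
      have hX2 : (X ^ 2 : K[X]).natDegree ≤ 2 := natDegree_X_pow_le 2
      have hXn : (X ^ n : K[X]).natDegree ≤ n := natDegree_X_pow_le n
      rw [mm]
      have e1 : (C β * X * mm β γ ρ c c' t (n + 1)).natDegree ≤ n + 2 :=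
        (natDegree_mul_le_of_le (natDegree_mul_le_of_le (hC β) hX) h1).trans (by omega)
      have e2 : (X ^ 2 * mm β γ ρ c c' t n).natDegree ≤ n + 2 :=
        (natDegree_mul_le_of_le hX2 h0).trans (by omega)
      have e3 : (X * mm β γ ρ c c' t n).natDegree ≤ n + 1 :=
        (natDegree_mul_le_of_le hX h0).trans (by omega)
      have e4 : (C γ * (X * mm β γ ρ c c' t n + mm β γ ρ c c' t (n + 1))).natDegree ≤ n + 2 :=
        (natDegree_mul_le_of_le (hC γ) (natDegree_add_le_of_le e3 h1)).trans (by simp)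
      have e5 : (C ρ * mm β γ ρ c c' t n).natDegree ≤ n + 2 :=
        (natDegree_mul_le_of_le (hC ρ) h0).trans (by omega)
      have e6 : ((C c * X + C c') * X ^ n).natDegree ≤ n + 2 := by
        refine (natDegree_mul_le_of_le (natDegree_add_le_of_le
          (natDegree_mul_le_of_le (hC c) hX) (hC c')) hXn).trans ?_
        simp only [zero_add, max_eq_left (Nat.zero_le 1)]
        omega
      have f1 := natDegree_sub_le_of_le e1 e2
      have f2 := natDegree_add_le_of_le f1 e4
      have f3 := natDegree_add_le_of_le f2 e5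
      have f4 := natDegree_add_le_of_le f3 e6
      simpa using f4

theorem DD_mem (β γ ρ c c' t : K) (d : ℕ) (f : K[X]) (hf : f ∈ degreeLE K (d : WithBot ℕ)) :
    DD β γ ρ c c' t f ∈ degreeLE K (d : WithBot ℕ) := by
  rw [mem_degreeLE, ← natDegree_le_iff_degree_le] at hf
  rw [f.as_sum_range_C_mul_X_pow, map_sum]
  refine Submodule.sum_mem _ fun i hi => ?_
  rw [← smul_eq_C_mul, map_smul, DD_X_pow]
  refine Submodule.smul_mem _ _ ?_
  rw [mem_degreeLE, ← natDegree_le_iff_degree_le]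
  have := mem_range.1 hi
  exact (mm_degree β γ ρ c c' t i).trans (by omega)

/-- The sequence `∑_{h < i} (θ_h - θ_{d-h})`. -/
def ss (θ : ℕ → K) (d i : ℕ) : K := ∑ h ∈ range i, (θ h - θ (d - h))

theorem ss_succ (θ : ℕ → K) (d i : ℕ) : ss θ d (i + 1) = ss θ d i + (θ i - θ (d - i)) := by
  rw [ss, sum_range_succ]; rfl

theorem ss_top (θ : ℕ → K) (d : ℕ) : ss θ d (d + 1) = 0 := by
  rw [ss, sum_sub_distrib, sub_eq_zero, ← sum_range_reflect]
  refine sum_congr rfl fun i hi => ?_
  congr 1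

theorem ss_symm (θ : ℕ → K) (d i : ℕ) (hi : i ≤ d + 1) : ss θ d (d + 1 - i) = ss θ d i := by
  induction i with
  | zero => rw [Nat.sub_zero, ss_top]; simp [ss]
  | succ i ih =>
    have h1 := ih (by omega)
    have h2 : d + 1 - i = (d + 1 - (i + 1)) + 1 := by omega
    rw [h2, ss_succ] at h1
    rw [ss_succ, ← h1]
    have h3 : d + 1 - (i + 1) = d - i := by omega
    have h4 : d - (d - i) = i := by omega
    rw [h3, h4]
    ring

/-- For every recurrent sequence of pairwise distinct elements there is a nonzero lowering map. -/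
theorem result (K : Type*) [Field K] (d : ℕ) (hd : 1 ≤ d) (θ : ℕ → K)
    (hinj : ∀ i j : ℕ, i ≤ d → j ≤ d → θ i = θ j → i = j)
    (hrec : ∀ i j : ℕ, 2 ≤ i → i ≤ d - 1 → 2 ≤ j → j ≤ d - 1 →
      (θ (i - 2) - θ (i + 1)) * (θ (i - 1) - θ i)⁻¹ =
        (θ (j - 2) - θ (j + 1)) * (θ (j - 1) - θ j)⁻¹) :
    ∃ Ψ : degreeLE K (d : WithBot ℕ) →ₗ[K] degreeLE K (d : WithBot ℕ),
      Ψ ≠ 0 ∧ IsLoweringMap θ d Ψ := by
  -- the parameters
  obtain ⟨β, hβ⟩ : ∃ β : K, ∀ i, i + 3 ≤ d →
      θ i - θ (i + 3) = (β + 1) * (θ (i + 1) - θ (i + 2)) := by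
    refine ⟨(θ 0 - θ 3) * (θ 1 - θ 2)⁻¹ - 1, fun i hi => ?_⟩
    have h1 := hrec (i + 2) 2 (by omega) (by omega) (by omega) (by omega)
    simp only [Nat.add_sub_cancel] at h1
    rw [show i + 2 - 1 = i + 1 by omega, show i + 2 + 1 = i + 3 by omega] at h1
    norm_num at h1
    rw [sub_add_cancel, ← h1]
    have h2 : θ (i + 1) - θ (i + 2) ≠ 0 := by
      intro h0
      have := hinj (i + 1) (i + 2) (by omega) (by omega) (sub_eq_zero.1 h0)
      omega
    rw [mul_assoc, inv_mul_cancel₀ h2, mul_one]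
  set γ : K := θ 0 - β * θ 1 + θ 2 with hγ0
  have hγ : ∀ i, i + 2 ≤ d → θ i - β * θ (i + 1) + θ (i + 2) = γ := by
    intro i
    induction i with
    | zero => intro _; rfl
    | succ i ih =>
      intro hi
      have h1 := ih (by omega)
      have h2 := hβ i (by omega)
      rw [show i + 1 + 1 = i + 2 from rfl, show i + 1 + 2 = i + 3 from rfl]
      linear_combination h1 - h2
  set ρ : K := θ 0 ^ 2 - β * θ 0 * θ 1 + θ 1 ^ 2 - γ * (θ 0 + θ 1) with hρ0
  have hρ : ∀ i, i + 1 ≤ d →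
      θ i ^ 2 - β * θ i * θ (i + 1) + θ (i + 1) ^ 2 - γ * (θ i + θ (i + 1)) = ρ := by
    intro i
    induction i with
    | zero => intro _; rfl
    | succ i ih =>
      intro hi
      have h1 := ih (by omega)
      have h2 := hγ i (by omega)
      rw [show i + 1 + 1 = i + 2 from rfl]
      linear_combination h1 + (θ (i + 2) - θ i) * h2
  set s : ℕ → K := ss θ d with hsdef
  have hs0 : s 0 = 0 := by simp [hsdef, ss]
  set c : K := s 0 - β * s 1 + s 2 with hc0
  have hs : ∀ i, i + 2 ≤ d → s i - β * s (i + 1) + s (i + 2) = c := by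
    intro i
    induction i with
    | zero => intro _; rfl
    | succ i ih =>
      intro hi
      have h1 := ih (by omega)
      have e1 : s (i + 1) = s i + (θ i - θ (d - i)) := ss_succ θ d i
      have e2 : s (i + 2) = s (i + 1) + (θ (i + 1) - θ (d - (i + 1))) := ss_succ θ d (i + 1)
      have e3 : s (i + 3) = s (i + 2) + (θ (i + 2) - θ (d - (i + 2))) := ss_succ θ d (i + 2)
      have g1 := hγ i (by omega)
      have g2 := hγ (d - (i + 2)) (by omega)
      rw [show d - (i + 2) + 1 = d - (i + 1) by omega, show d - (i + 2) + 2 = d - i by omega] at g2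
      rw [show i + 1 + 1 = i + 2 from rfl, show i + 1 + 2 = i + 3 from rfl]
      linear_combination h1 + e1 - β * e2 + e3 + g1 - g2
  set c' : K := s 1 * (θ 1 - θ 2) + s 2 * (θ 1 - θ 0) - c * θ 1 with hc'0
  have hcc : ∀ i, i + 2 ≤ d → s (i + 1) * (θ (i + 1) - θ (i + 2)) +
      s (i + 2) * (θ (i + 1) - θ i) - c * θ (i + 1) = c' := by
    intro i
    induction i with
    | zero => intro _; rfl
    | succ i ih =>
      intro hi
      have h1 := ih (by omega)
      have h2 := hs (i + 1) (by omega)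
      have h3 := hβ i (by omega)
      rw [show i + 1 + 1 = i + 2 from rfl, show i + 1 + 2 = i + 3 from rfl] at h2 ⊢
      linear_combination h1 + (θ (i + 2) - θ (i + 1)) * h2 + s (i + 2) * h3
  set D := DD β γ ρ c c' (s 1) with hD
  have key1 : ∀ i, i + 1 ≤ d → D (pp θ (i + 1)) = C (s (i + 1)) * pp θ i := by
    exact DD_pp hs0 rfl hs hγ hρ hcc
  have key2 : ∀ i, i + 1 ≤ d → D (pp (fun h => θ (d - h)) (i + 1)) =
      C (s (i + 1)) * pp (fun h => θ (d - h)) i := by
    refine DD_pp hs0 rfl hs ?_ ?_ ?_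
    · intro i hi
      have g := hγ (d - (i + 2)) (by omega)
      rw [show d - (i + 2) + 1 = d - (i + 1) by omega, show d - (i + 2) + 2 = d - i by omega] at g
      linear_combination g
    · intro i hi
      have g := hρ (d - (i + 1)) (by omega)
      rw [show d - (i + 1) + 1 = d - i by omega] at g
      linear_combination g
    · intro i hi
      have g := hcc (d - (i + 2)) (by omega)
      have e1 : s (d - (i + 2) + 1) = s (i + 2) := by
        rw [show d - (i + 2) + 1 = d + 1 - (i + 2) by omega]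
        exact ss_symm θ d (i + 2) (by omega)
      have e2 : s (d - (i + 2) + 2) = s (i + 1) := by
        rw [show d - (i + 2) + 2 = d + 1 - (i + 1) by omega]
        exact ss_symm θ d (i + 1) (by omega)
      rw [e1, e2, show d - (i + 2) + 1 = d - (i + 1) by omega,
        show d - (i + 2) + 2 = d - i by omega] at g
      linear_combination g
  have hD1 : D 1 = 0 := DD_one β γ ρ c c' (s 1)
  let Ψ : degreeLE K (d : WithBot ℕ) →ₗ[K] degreeLE K (d : WithBot ℕ) :=
    D.restrict (DD_mem β γ ρ c c' (s 1) d)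
  have hΨ : ∀ v, (Ψ v : K[X]) = D (v : K[X]) := fun v => rfl
  refine ⟨Ψ, ?_, ?_, ?_, ?_, ?_⟩
  · intro h0
    have hX : (X : K[X]) ∈ degreeLE K (d : WithBot ℕ) := by
      rw [mem_degreeLE, degree_X]
      exact_mod_cast hd
    have h1 := hΨ ⟨X, hX⟩
    rw [h0] at h1
    have h2 : D X = C (s 1) := DD_X β γ ρ c c' (s 1)
    rw [h2] at h1
    have h3 : s 1 = 0 := by
      have : (C (s 1) : K[X]) = 0 := h1.symm
      rwa [C_eq_zero] at this
    have h4 : s 1 = θ 0 - θ d := by simp [hsdef, ss]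
    rw [h4, sub_eq_zero] at h3
    have := hinj 0 d (by omega) le_rfl h3
    omega
  · intro v hv
    rw [hΨ, hv, tau, range_zero, prod_empty, hD1]
  · intro v hv
    rw [hΨ, hv, rho, range_zero, prod_empty, hD1]
  · intro i hi hid v hv
    obtain ⟨i, rfl⟩ := Nat.exists_eq_add_of_le' hi
    refine ⟨s (i + 1), ?_⟩
    rw [hΨ, hv, Nat.add_sub_cancel, smul_eq_C_mul]
    exact key1 i hid
  · intro i hi hid v hv
    obtain ⟨i, rfl⟩ := Nat.exists_eq_add_of_le' hi
    refine ⟨s (i + 1), ?_⟩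
    rw [hΨ, hv, Nat.add_sub_cancel, smul_eq_C_mul]
    exact key2 i hid

end Pool.Agent.Results.MP_87e037_al.LoweringMaps
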